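import Mathlib

set_option autoImplicit false

open Set ENNReal NNReal

namespace Pool.Agent.Results.MP_c087c9_gt.BoundedPlanar

/-- `Far X a C`: `C` is a nonempty connected subset of `X × X` all of whose points
`(x, y)` satisfy `d(x, y) ≥ a`. -/
def Far (X : Type) [MetricSpace X] (a : ℝ≥0) (C : Set (X × X)) : Prop :=
  IsConnected C ∧ ∀ p ∈ C, (a : ℝ) ≤ dist p.1 p.2

/-- The surjective span `σ*(X)`, with values in `[0, ∞]`: the supremum of the real numbers
`a ≥ 0` for which there is a connected `C ⊆ X × X` with both projections equal to `X` and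
`d(x, y) ≥ a` for all `(x, y) ∈ C`. -/
noncomputable def surjSpan (X : Type) [MetricSpace X] : ℝ≥0∞ :=
  sSup {b : ℝ≥0∞ | ∃ a : ℝ≥0, b = (a : ℝ≥0∞) ∧ ∃ C : Set (X × X), Far X a C ∧
    Prod.fst '' C = univ ∧ Prod.snd '' C = univ}

/-- The surjective semi-span `σ₀*(X)`, with values in `[0, ∞]`: as `surjSpan`, but only one of
the two projections of `C` is required to be equal to `X`. -/
noncomputable def surjSemiSpan (X : Type) [MetricSpace X] : ℝ≥0∞ :=
  sSup {b : ℝ≥0∞ | ∃ a : ℝ≥0, b = (a : ℝ≥0∞) ∧ ∃ C : Set (X × X), Far X a C ∧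
    (Prod.fst '' C = univ ∨ Prod.snd '' C = univ)}

/-- A general principle: if `X` admits a continuous injective function `h : X → ℝ` attaining its
minimum, then the surjective span of `X` is zero. -/
theorem span_zero_of_inj {X : Type} [MetricSpace X] (h : X → ℝ) (hc : Continuous h)
    (hi : Function.Injective h) (z : X) (hz : ∀ x, h z ≤ h x) : surjSpan X = 0 := by
  unfold surjSpan
  rw [← nonpos_iff_eq_zero]
  refine sSup_le ?_
  rintro b ⟨a, rfl, C, ⟨hC, hfar⟩, h1, h2⟩
  by_contra hne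
  have hapos : (0 : ℝ) < a := by
    rcases eq_or_lt_of_le a.2 with h | h
    · exfalso; apply hne
      have : a = 0 := by
        ext; exact h.symm
      simp [this]
    · exact h
  obtain ⟨p, hp, hp1⟩ : z ∈ Prod.fst '' C := by rw [h1]; trivial
  obtain ⟨q, hq, hq2⟩ : z ∈ Prod.snd '' C := by rw [h2]; trivial
  have hf : ContinuousOn (fun s : X × X => h s.1 - h s.2) C :=
    (by fun_prop : Continuous (fun s : X × X => h s.1 - h s.2)).continuousOn
  have key := hC.isPreconnected.intermediate_value hp hq hf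
  have h0 : (0 : ℝ) ∈ Icc ((fun s : X × X => h s.1 - h s.2) p)
      ((fun s : X × X => h s.1 - h s.2) q) := by
    constructor
    · show h p.1 - h p.2 ≤ 0
      rw [hp1]; linarith [hz p.2]
    · show 0 ≤ h q.1 - h q.2
      rw [hq2]; linarith [hz q.1]
  obtain ⟨s, hs, hs0⟩ := key h0
  have hs1 : h s.1 = h s.2 := sub_eq_zero.1 hs0
  have hs2 : s.1 = s.2 := hi hs1
  have := hfar s hs
  rw [hs2, dist_self] at this
  linarith

/-! ### The spiral -/

/-- The spiral `t ↦ (1 + e^{-t}) e^{i t}`, `t ≥ 0`. -/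
noncomputable def gam (t : ℝ) : ℂ := ((1 + Real.exp (-t) : ℝ) : ℂ) * Complex.exp (t * Complex.I)

theorem norm_gam (t : ℝ) : ‖gam t‖ = 1 + Real.exp (-t) := by
  unfold gam
  rw [norm_mul, Complex.norm_exp_ofReal_mul_I, mul_one, Complex.norm_real, Real.norm_eq_abs,
    abs_of_pos]
  have := Real.exp_pos (-t)
  linarith

theorem continuous_gam : Continuous gam := by
  unfold gam
  fun_prop

/-- The planar set traced by the spiral. -/
def Spiral : Set ℂ := gam '' Ici 0

theorem spiral_connected : IsConnected Spiral :=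
  isConnected_Ici.image _ continuous_gam.continuousOn

theorem spiral_bounded : Bornology.IsBounded Spiral := by
  rw [Metric.isBounded_iff_subset_closedBall 0]
  refine ⟨2, ?_⟩
  rintro _ ⟨t, ht, rfl⟩
  rw [mem_closedBall_zero_iff, norm_gam]
  have : Real.exp (-t) ≤ 1 := Real.exp_le_one_iff.2 (by simpa using ht)
  linarith

theorem spiral_span : surjSpan Spiral = 0 := by
  have hmem : gam 0 ∈ Spiral := ⟨0, by simp, rfl⟩
  refine span_zero_of_inj (fun x : Spiral => - ‖(x : ℂ)‖) (by fun_prop) ?_ ⟨gam 0, hmem⟩ ?_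
  · rintro ⟨_, t, ht, rfl⟩ ⟨_, s, hs, rfl⟩ hts
    simp only [norm_gam, neg_inj] at hts
    have h1 : Real.exp (-t) = Real.exp (-s) := by linarith
    have h2 : t = s := by
      have := Real.exp_injective h1
      linarith
    subst h2
    rfl
  · rintro ⟨_, t, ht, rfl⟩
    simp only [norm_gam, neg_zero, Real.exp_zero]
    have : Real.exp (-t) ≤ 1 := Real.exp_le_one_iff.2 (by simpa using ht)
    linarith

theorem dist_gam (t : ℝ) : 2 ≤ dist (gam t) (gam (t + Real.pi)) := by
  have h : gam (t + Real.pi) =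
      -(((1 + Real.exp (-(t + Real.pi)) : ℝ) : ℂ) * Complex.exp (t * Complex.I)) := by
    unfold gam
    rw [Complex.ofReal_add t Real.pi, add_mul, Complex.exp_add, Complex.exp_pi_mul_I]
    ring
  rw [h, dist_eq_norm, sub_neg_eq_add]
  unfold gam
  rw [← add_mul, ← Complex.ofReal_add, norm_mul, Complex.norm_exp_ofReal_mul_I, mul_one,
    Complex.norm_real, Real.norm_eq_abs]
  have h1 := Real.exp_pos (-t)
  have h2 := Real.exp_pos (-(t + Real.pi))
  rw [abs_of_pos (by linarith)]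
  linarith

theorem spiral_semi : 2 ≤ surjSemiSpan Spiral := by
  unfold surjSemiSpan
  refine le_sSup ?_
  have hm : ∀ t : Ici (0 : ℝ), gam t.1 ∈ Spiral := fun t => ⟨t.1, t.2, rfl⟩
  have hm' : ∀ t : Ici (0 : ℝ), gam (t.1 + Real.pi) ∈ Spiral := fun t =>
    ⟨t.1 + Real.pi, add_nonneg t.2 Real.pi_pos.le, rfl⟩
  refine ⟨2, by norm_num, range (fun t : Ici (0 : ℝ) =>
    (((⟨gam t.1, hm t⟩ : Spiral), (⟨gam (t.1 + Real.pi), hm' t⟩ : Spiral)) : Spiral × Spiral)),
    ⟨?_, ?_⟩, Or.inl ?_⟩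
  · have : ConnectedSpace (Ici (0 : ℝ)) :=
      isConnected_iff_connectedSpace.1 isConnected_Ici
    apply isConnected_range
    refine Continuous.prodMk (Continuous.subtype_mk ?_ _) (Continuous.subtype_mk ?_ _)
    · exact continuous_gam.comp continuous_subtype_val
    · exact continuous_gam.comp (continuous_subtype_val.add continuous_const)
  · rintro p ⟨t, rfl⟩
    simpa [Subtype.dist_eq] using dist_gam t.1
  · rw [← range_comp]
    refine eq_univ_of_forall ?_
    rintro ⟨_, t, ht, rfl⟩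
    exact ⟨⟨t, ht⟩, rfl⟩

theorem spiral_semi_fin : surjSemiSpan Spiral ≤ 4 := by
  unfold surjSemiSpan
  refine sSup_le ?_
  rintro b ⟨a, rfl, C, ⟨hC, hfar⟩, -⟩
  obtain ⟨p, hp⟩ := hC.nonempty
  have h1 := hfar p hp
  have hb : ∀ x : Spiral, ‖(x : ℂ)‖ ≤ 2 := by
    rintro ⟨_, t, ht, rfl⟩
    rw [norm_gam]
    have : Real.exp (-t) ≤ 1 := Real.exp_le_one_iff.2 (by simpa using ht)
    linarith
  have h2 : dist p.1 p.2 ≤ 4 := by
    rw [Subtype.dist_eq, dist_eq_norm]
    have := norm_sub_le (p.1 : ℂ) (p.2 : ℂ)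
    linarith [hb p.1, hb p.2]
  have h3 : (a : ℝ) ≤ ((4 : ℝ≥0) : ℝ) := by
    simpa using h1.trans h2
  exact_mod_cast (NNReal.coe_le_coe.1 h3)

/-! ### The half-line -/

theorem half_semi : surjSemiSpan (Ici (0 : ℝ)) = ⊤ := by
  unfold surjSemiSpan
  refine ENNReal.eq_top_of_forall_nnreal_le fun r => ?_
  have hlt : (r : ℝ≥0∞) ≤ ((r + 1 : ℝ≥0) : ℝ≥0∞) := by
    exact_mod_cast (lt_add_one r).le
  refine hlt.trans (le_sSup ?_)
  refine ⟨r + 1, rfl, range (fun x : Ici (0 : ℝ) =>
    ((x, ⟨x.1 + (r + 1 : ℝ≥0), mem_Ici.2 (add_nonneg x.2 (r + 1).2)⟩) :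
      Ici (0 : ℝ) × Ici (0 : ℝ))), ⟨?_, ?_⟩, Or.inl ?_⟩
  · have : ConnectedSpace (Ici (0 : ℝ)) :=
      isConnected_iff_connectedSpace.1 isConnected_Ici
    apply isConnected_range
    exact continuous_id.prodMk (Continuous.subtype_mk (continuous_subtype_val.add continuous_const) _)
  · rintro p ⟨x, rfl⟩
    simp only [Subtype.dist_eq, Real.dist_eq]
    rw [sub_add_cancel_left, abs_neg]
    exact le_abs_self _
  · rw [← range_comp]
    exact eq_univ_of_forall fun x => ⟨x, rfl⟩

theorem half_span : surjSpan (Ici (0 : ℝ)) = 0 :=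
  span_zero_of_inj (fun x : Ici (0 : ℝ) => (x : ℝ)) (by fun_prop) Subtype.val_injective
    ⟨0, mem_Ici.2 le_rfl⟩ (fun x => x.2)

/-- The inequality `σ₀*(X) ≤ 2 σ*(X)` fails for connected metric spaces, with no constant in
place of `2`:
* there is a bounded connected subset `X` of the plane with `σ*(X) = 0` and
  `2 ≤ σ₀*(X) ≤ 4`;
* there is a closed connected subset `X` of the line with `σ*(X) = 0` and `σ₀*(X) = ∞`. -/
theorem result :
    (∃ X : Set ℂ, Bornology.IsBounded X ∧ IsConnected X ∧ surjSpan X = 0 ∧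
      2 ≤ surjSemiSpan X ∧ surjSemiSpan X ≤ 4 ∧ 2 * surjSpan X < surjSemiSpan X) ∧
    (∃ X : Set ℝ, IsClosed X ∧ IsConnected X ∧ surjSpan X = 0 ∧
      surjSemiSpan X = ⊤ ∧ 2 * surjSpan X < surjSemiSpan X) := by
  refine ⟨⟨Spiral, spiral_bounded, spiral_connected, spiral_span, spiral_semi,
    spiral_semi_fin, ?_⟩, ⟨Ici 0, isClosed_Ici, isConnected_Ici, half_span, half_semi, ?_⟩⟩
  · rw [spiral_span, mul_zero]
    exact lt_of_lt_of_le (by norm_num) spiral_semi
  · rw [half_span, half_semi]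
    simp

end Pool.Agent.Results.MP_c087c9_gt.BoundedPlanar
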