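import Mathlib

set_option autoImplicit false

open Set ENNReal NNReal

namespace Pool.Agent.Results.MP_c087c9_gt.BoundedTurning

/-- `Far X a C`: `C` is a nonempty connected subset of `X × X` all of whose points
`(x, y)` satisfy `d(x, y) ≥ a`. -/
def Far (X : Type) [MetricSpace X] (a : ℝ≥0) (C : Set (X × X)) : Prop :=
  IsConnected C ∧ ∀ p ∈ C, (a : ℝ) ≤ dist p.1 p.2

/-- The surjective span `σ*(X)`, with values in `[0, ∞]`: the supremum of the real numbers
`a ≥ 0` for which there is a connected `C ⊆ X × X` with both projections equal to `X` and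
`d(x, y) ≥ a` for all `(x, y) ∈ C`. -/
noncomputable def surjSpan (X : Type) [MetricSpace X] : ℝ≥0∞ :=
  sSup {b : ℝ≥0∞ | ∃ a : ℝ≥0, b = (a : ℝ≥0∞) ∧ ∃ C : Set (X × X), Far X a C ∧
    Prod.fst '' C = univ ∧ Prod.snd '' C = univ}

/-- The surjective semi-span `σ₀*(X)`, with values in `[0, ∞]`: as `surjSpan`, but only one of
the two projections of `C` is required to be equal to `X`. -/
noncomputable def surjSemiSpan (X : Type) [MetricSpace X] : ℝ≥0∞ :=
  sSup {b : ℝ≥0∞ | ∃ a : ℝ≥0, b = (a : ℝ≥0∞) ∧ ∃ C : Set (X × X), Far X a C ∧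
    (Prod.fst '' C = univ ∨ Prod.snd '' C = univ)}

/-- Any two points `x`, `y` lie in a connected subset of the closed ball around `x` of radius
`c · d(x, y)`. For `c = 1` this holds in every geodesic space. -/
def Turning (X : Type) [MetricSpace X] (c : ℝ≥0) : Prop :=
  ∀ x y : X, ∃ S : Set X, IsPreconnected S ∧ x ∈ S ∧ y ∈ S ∧
    S ⊆ Metric.closedBall x (c * dist x y)

/-- The set of pairs at distance at least `b`. -/
def DD (X : Type) [MetricSpace X] (b : ℝ) : Set (X × X) := {p | b ≤ dist p.1 p.2}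

theorem isClosed_DD (X : Type) [MetricSpace X] (b : ℝ) : IsClosed (DD X b) := by
  unfold DD
  exact isClosed_le continuous_const (by fun_prop)

/-- Main step: no separation of `C` from its reflection. -/
theorem no_sep {X : Type} [MetricSpace X] [CompactSpace X] [ConnectedSpace X] {c : ℝ≥0}
    (hT : Turning X c) {a b : ℝ} (hb : 0 < b) (hab : (1 + c) * b ≤ a)
    (C P R : Set (X × X)) (hCfar : ∀ p ∈ C, a ≤ dist p.1 p.2)
    (hP : IsClosed P) (hR : IsClosed R) (hPR : P ∪ R = DD X b) (hdis : Disjoint P R)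
    (hanti : ∀ p ∈ P, p.swap ∉ P) (hCP : C ⊆ P) (hfst : Prod.fst '' C = univ) : False := by
  have hPD : P ⊆ DD X b := by rw [← hPR]; exact subset_union_left
  have hRD : R ⊆ DD X b := by rw [← hPR]; exact subset_union_right
  have hmem : ∀ p ∈ DD X b, p ∉ P → p ∈ R := by
    intro p hp hn
    rw [← hPR] at hp
    exact hp.resolve_left hn
  have hPR' : ∀ p ∈ P, p ∉ R := fun p hp hr => (Set.disjoint_left.1 hdis) hp hr
  -- a preconnected subset of `DD` meeting `P` lies in `P`
  have hconn : ∀ T : Set (X × X), IsPreconnected T → T ⊆ DD X b → (T ∩ P).Nonempty → T ⊆ P := by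
    intro T hT1 hT2 hT3
    rcases (isPreconnected_iff_subset_of_disjoint_closed.1 hT1) P R hP hR
      (by rw [hPR]; exact hT2)
      (by rw [Set.disjoint_iff_inter_eq_empty.1 hdis, Set.inter_empty]) with h | h
    · exact h
    · obtain ⟨p, hpT, hpP⟩ := hT3
      exact absurd (h hpT) (hPR' p hpP)
  have hc0 : (0 : ℝ) ≤ c := c.2
  -- (L1)
  have hL1 : ∀ v w z : X, (v, w) ∈ C → dist z v ≤ b → (z, w) ∈ P := by
    intro v w z hvw hz
    obtain ⟨S, hS, hvS, hzS, hSb⟩ := hT v z
    have hsub : (fun s => (s, w)) '' S ⊆ P := by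
      refine hconn _ (hS.image _ (by fun_prop)) ?_ ⟨(v, w), ⟨v, hvS, rfl⟩, hCP hvw⟩
      rintro _ ⟨s, hs, rfl⟩
      have h1 := hSb hs
      rw [Metric.mem_closedBall] at h1
      have h2 := hCfar _ hvw
      have h3 : dist v w ≤ dist s v + dist s w := by
        have := dist_triangle v s w
        rwa [dist_comm v s] at this
      have h4 : (c : ℝ) * dist v z ≤ c * b := by
        apply mul_le_mul_of_nonneg_left _ hc0
        rwa [dist_comm]
      simp only [DD, mem_ofPred_eq] at *
      nlinarith
    exact hsub ⟨z, hzS, rfl⟩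
  -- (L2)
  have hL2 : ∀ v w z : X, (v, w) ∈ C → dist z w ≤ b → (v, z) ∈ P := by
    intro v w z hvw hz
    obtain ⟨S, hS, hwS, hzS, hSb⟩ := hT w z
    have hsub : (fun s => (v, s)) '' S ⊆ P := by
      refine hconn _ (hS.image _ (by fun_prop)) ?_ ⟨(v, w), ⟨w, hwS, rfl⟩, hCP hvw⟩
      rintro _ ⟨s, hs, rfl⟩
      have h1 := hSb hs
      rw [Metric.mem_closedBall] at h1
      have h2 := hCfar _ hvw
      have h3 : dist v w ≤ dist v s + dist s w := dist_triangle v s w
      have h4 : (c : ℝ) * dist w z ≤ c * b := by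
        apply mul_le_mul_of_nonneg_left _ hc0
        rwa [dist_comm]
      simp only [DD, mem_ofPred_eq] at *
      nlinarith
    exact hsub ⟨z, hzS, rfl⟩
  -- transitivity
  have htrans : ∀ u v w : X, (u, v) ∈ P → (v, w) ∈ C → (u, w) ∈ P := by
    intro u v w huv hvw
    let Z : Set X := {z | (v, z) ∈ R ∧ (z, w) ∈ R}
    let F : Set X := {z | (v, z) ∈ P} ∪ {z | (z, w) ∈ P} ∪ {z | dist z v ≤ b} ∪
      {z | dist z w ≤ b}
    have hZc : IsClosed Z := by
      have h1 : IsClosed {z : X | (v, z) ∈ R} := hR.preimage (by fun_prop)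
      have h2 : IsClosed {z : X | (z, w) ∈ R} := hR.preimage (by fun_prop)
      exact h1.inter h2
    have hFc : IsClosed F := by
      have h1 : IsClosed {z : X | (v, z) ∈ P} := hP.preimage (by fun_prop)
      have h2 : IsClosed {z : X | (z, w) ∈ P} := hP.preimage (by fun_prop)
      have h3 : IsClosed {z : X | dist z v ≤ b} := isClosed_le (by fun_prop) continuous_const
      have h4 : IsClosed {z : X | dist z w ≤ b} := isClosed_le (by fun_prop) continuous_const
      exact ((h1.union h2).union h3).union h4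
    have hFZ : F = Zᶜ := by
      ext z
      constructor
      · rintro (((h | h) | h) | h) ⟨hz1, hz2⟩
        · exact hPR' _ h hz1
        · exact hPR' _ h hz2
        · exact hPR' _ (hL1 v w z hvw h) hz2
        · exact hPR' _ (hL2 v w z hvw h) hz1
      · intro hz
        by_contra hzF
        apply hz
        have h1 : (v, z) ∉ P := fun h => hzF (Or.inl (Or.inl (Or.inl h)))
        have h2 : (z, w) ∉ P := fun h => hzF (Or.inl (Or.inl (Or.inr h)))
        have h3 : ¬ dist z v ≤ b := fun h => hzF (Or.inl (Or.inr h))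
        have h4 : ¬ dist z w ≤ b := fun h => hzF (Or.inr h)
        refine ⟨hmem _ ?_ h1, hmem _ ?_ h2⟩
        · simp only [DD, mem_ofPred_eq]
          rw [dist_comm]
          exact (not_le.1 h3).le
        · simp only [DD, mem_ofPred_eq]
          exact (not_le.1 h4).le
    have hZclopen : IsClopen Z := by
      refine ⟨hZc, ?_⟩
      rw [← isClosed_compl_iff, ← hFZ]
      exact hFc
    have hZempty : Z = ∅ := by
      rcases isClopen_iff.1 hZclopen with h | h
      · exact h
      · exfalso
        have hv : v ∈ Z := by rw [h]; trivial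
        have := hRD hv.1
        simp only [DD, mem_ofPred_eq, dist_self] at this
        linarith
    have hvuP : (v, u) ∉ P := by
      have := hanti _ huv
      simpa using this
    have hvuD : (v, u) ∈ DD X b := by
      have := hPD huv
      simp only [DD, mem_ofPred_eq] at this ⊢
      rwa [dist_comm]
    have hvuR : (v, u) ∈ R := hmem _ hvuD hvuP
    have huw : ¬ dist u w ≤ b := fun h => hvuP (hL2 v w u hvw h)
    have huwD : (u, w) ∈ DD X b := by
      simp only [DD, mem_ofPred_eq]
      exact (not_le.1 huw).le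
    by_contra hn
    have : u ∈ Z := ⟨hvuR, hmem _ huwD hn⟩
    rw [hZempty] at this
    exact this
  -- the chain
  have hex : ∀ v : X, ∃ w : X, (v, w) ∈ C := by
    intro v
    have : v ∈ Prod.fst '' C := by rw [hfst]; trivial
    obtain ⟨⟨x, y⟩, hxy, rfl⟩ := this
    exact ⟨y, hxy⟩
  choose f hf using hex
  obtain ⟨x0⟩ : Nonempty X := inferInstance
  let u : ℕ → X := fun n => f^[n] x0
  have hu1 : ∀ n, (u n, u (n + 1)) ∈ C := by
    intro n
    have : u (n + 1) = f (u n) := by simp only [u]; exact Function.iterate_succ_apply' f n x0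
    rw [this]
    exact hf _
  have hu : ∀ i k, (u i, u (i + k + 1)) ∈ P := by
    intro i k
    induction k with
    | zero => exact hCP (hu1 i)
    | succ k ih => exact htrans _ _ _ ih (hu1 (i + k + 1))
  have hdist : ∀ i j, i < j → b ≤ dist (u i) (u j) := by
    intro i j hij
    obtain ⟨k, rfl⟩ : ∃ k, j = i + k + 1 := ⟨j - i - 1, by omega⟩
    exact hPD (hu i k)
  obtain ⟨l, -, φ, hφ, hlim⟩ := isCompact_univ.tendsto_subseq (fun n => mem_univ (u n))
  have hcau := hlim.cauchySeq
  rw [Metric.cauchySeq_iff] at hcau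
  obtain ⟨N, hN⟩ := hcau b hb
  have h1 := hN N le_rfl (N + 1) (Nat.le_succ N)
  have h2 := hdist (φ N) (φ (N + 1)) (hφ (Nat.lt_succ_self N))
  simp only [Function.comp] at h1
  linarith

/-- The connected symmetric set. -/
theorem exists_symm {X : Type} [MetricSpace X] [CompactSpace X] [ConnectedSpace X] {c : ℝ≥0}
    (hT : Turning X c) {a b : ℝ} (hb : 0 < b) (hab : (1 + c) * b ≤ a)
    (C : Set (X × X)) (hC : IsConnected C) (hCfar : ∀ p ∈ C, a ≤ dist p.1 p.2)
    (hfst : Prod.fst '' C = univ) :
    ∃ K : Set (X × X), IsConnected K ∧ (∀ p ∈ K, b ≤ dist p.1 p.2) ∧ (∀ p ∈ K, p.swap ∈ K) ∧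
      C ⊆ K := by
  have hc0 : (0 : ℝ) ≤ c := c.2
  have hba : b ≤ a := by nlinarith
  have hCD : C ⊆ DD X b := fun p hp => hba.trans (hCfar p hp)
  obtain ⟨c0, hc0C⟩ := hC.nonempty
  let K := connectedComponentIn (DD X b) c0
  have hc0D : c0 ∈ DD X b := hCD hc0C
  have hCK : C ⊆ K := hC.isPreconnected.subset_connectedComponentIn hc0C hCD
  have hKconn : IsConnected K := isConnected_connectedComponentIn_iff.2 hc0D
  have hKD : K ⊆ DD X b := connectedComponentIn_subset _ _
  have hswD : ∀ p ∈ DD X b, p.swap ∈ DD X b := by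
    intro p hp
    simp only [DD, mem_ofPred_eq, Prod.fst_swap, Prod.snd_swap] at hp ⊢
    rwa [dist_comm]
  by_cases hsw : c0.swap ∈ K
  · refine ⟨K, hKconn, fun p hp => hKD hp, ?_, hCK⟩
    have h1 : IsPreconnected (Prod.swap '' K) :=
      hKconn.isPreconnected.image _ continuous_swap.continuousOn
    have h2 : Prod.swap '' K ⊆ DD X b := by
      rintro _ ⟨p, hp, rfl⟩
      exact hswD p (hKD hp)
    have h3 : c0 ∈ Prod.swap '' K := ⟨c0.swap, hsw, by simp⟩
    have h4 : Prod.swap '' K ⊆ K := h1.subset_connectedComponentIn h3 h2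
    intro p hp
    exact h4 ⟨p, hp, rfl⟩
  · exfalso
    -- clopen separation in the compact space DD
    have : CompactSpace (DD X b) := isCompact_iff_compactSpace.1 (isClosed_DD X b).isCompact
    let x : DD X b := ⟨c0, hc0D⟩
    let y : DD X b := ⟨c0.swap, hswD _ hc0D⟩
    have hy : y ∉ connectedComponent x := by
      intro hy
      apply hsw
      show c0.swap ∈ connectedComponentIn (DD X b) c0
      rw [connectedComponentIn_eq_image hc0D]
      exact ⟨y, hy, rfl⟩
    rw [connectedComponent_eq_iInter_isClopen] at hy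
    simp only [mem_iInter, not_forall] at hy
    obtain ⟨⟨Q, hQ, hxQ⟩, hyQ⟩ := hy
    -- Q clopen in DD, x ∈ Q, y ∉ Q
    let Q1 : Set (X × X) := Subtype.val '' Q
    let Q2 : Set (X × X) := Subtype.val '' Qᶜ
    have hcl : ∀ T : Set (DD X b), IsClosed T → IsClosed (Subtype.val '' T : Set (X × X)) :=
      fun T hT => ((isClosed_DD X b).isClosedEmbedding_subtypeVal).isClosedMap T hT
    have hQ1 : IsClosed Q1 := hcl Q hQ.isClosed
    have hQ2 : IsClosed Q2 := hcl Qᶜ hQ.compl.isClosed
    have hQ12 : Q1 ∪ Q2 = DD X b := by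
      rw [← image_union, union_compl_self, image_univ, Subtype.range_coe]
    have hQd : Disjoint Q1 Q2 := by
      rw [Set.disjoint_image_iff Subtype.val_injective]
      exact disjoint_compl_right
    let s1 : Set (X × X) := Prod.swap ⁻¹' Q1
    let s2 : Set (X × X) := Prod.swap ⁻¹' Q2
    have hs1 : IsClosed s1 := hQ1.preimage continuous_swap
    have hs2 : IsClosed s2 := hQ2.preimage continuous_swap
    have hs12 : s1 ∪ s2 = DD X b := by
      ext p
      constructor
      · rintro (h | h)
        · have : p.swap ∈ DD X b := by rw [← hQ12]; exact Or.inl h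
          simpa using hswD _ this
        · have : p.swap ∈ DD X b := by rw [← hQ12]; exact Or.inr h
          simpa using hswD _ this
      · intro h
        have := hswD _ h
        rw [← hQ12] at this
        exact this
    have hsd : Disjoint s1 s2 := hQd.preimage _
    have hc0Q1 : c0 ∈ Q1 := ⟨x, hxQ, rfl⟩
    have hc0s1 : c0 ∉ s1 := by
      intro h
      obtain ⟨y', hy', hyy⟩ : c0.swap ∈ Q1 := h
      have : y' = y := Subtype.ext hyy
      rw [this] at hy'
      exact hyQ hy'
    -- P = Q1 ∩ s2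
    refine no_sep hT hb hab C (Q1 ∩ s2) (Q2 ∪ s1) hCfar (hQ1.inter hs2) (hQ2.union hs1) ?_ ?_ ?_
      ?_ hfst
    · ext p
      constructor
      · rintro (⟨h, -⟩ | (h | h))
        · rw [← hQ12]; exact Or.inl h
        · rw [← hQ12]; exact Or.inr h
        · rw [← hs12]; exact Or.inl h
      · intro h
        have h1 : p ∈ Q1 ∪ Q2 := by rw [hQ12]; exact h
        have h2 : p ∈ s1 ∪ s2 := by rw [hs12]; exact h
        rcases h1 with h1 | h1
        · rcases h2 with h2 | h2
          · exact Or.inr (Or.inr h2)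
          · exact Or.inl ⟨h1, h2⟩
        · exact Or.inr (Or.inl h1)
    · rw [Set.disjoint_left]
      rintro p ⟨h1, h2⟩ (h3 | h3)
      · exact Set.disjoint_left.1 hQd h1 h3
      · exact Set.disjoint_left.1 hsd h3 h2
    · rintro p ⟨h1, h2⟩ ⟨h3, h4⟩
      exact Set.disjoint_left.1 hQd h3 h2
    · have hsub1 : C ⊆ Q1 := by
        rcases (isPreconnected_iff_subset_of_disjoint_closed.1 hC.isPreconnected) Q1 Q2 hQ1 hQ2
          (by rw [hQ12]; exact hCD)
          (by rw [Set.disjoint_iff_inter_eq_empty.1 hQd, Set.inter_empty]) with h | h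
        · exact h
        · exact absurd (h hc0C) (fun h' => Set.disjoint_left.1 hQd hc0Q1 h')
      have hsub2 : C ⊆ s2 := by
        rcases (isPreconnected_iff_subset_of_disjoint_closed.1 hC.isPreconnected) s1 s2 hs1 hs2
          (by rw [hs12]; exact hCD)
          (by rw [Set.disjoint_iff_inter_eq_empty.1 hsd, Set.inter_empty]) with h | h
        · exact absurd (h hc0C) hc0s1
        · exact h
      exact subset_inter hsub1 hsub2

/-- If any two points `x, y` of the continuum `X` lie in a connected subset of the closed ball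
around `x` of radius `c · d(x, y)`, then `σ₀*(X) ≤ (1 + c) σ*(X)`. -/
theorem semispan_le {X : Type} [MetricSpace X] [CompactSpace X] [ConnectedSpace X] {c : ℝ≥0}
    (hT : Turning X c) : surjSemiSpan X ≤ (1 + c) * surjSpan X := by
  unfold surjSemiSpan
  refine sSup_le ?_
  rintro _ ⟨a, rfl, C, ⟨hC, hfar⟩, hproj⟩
  rcases eq_or_lt_of_le (bot_le : (0 : ℝ≥0) ≤ a) with ha | ha
  · rw [← ha]; simp
  have hc1 : (0 : ℝ≥0) < 1 + c := by positivity
  have hb : 0 < a / (1 + c) := div_pos ha hc1
  -- wlog first projection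
  have hmain : ∀ C : Set (X × X), IsConnected C → (∀ p ∈ C, (a : ℝ) ≤ dist p.1 p.2) →
      Prod.fst '' C = univ → ((a / (1 + c) : ℝ≥0) : ℝ≥0∞) ≤ surjSpan X := by
    intro C hC hfar hfst
    obtain ⟨K, hK, hKfar, hKs, hCK⟩ := exists_symm hT (a := (a : ℝ))
      (b := ((a / (1 + c) : ℝ≥0) : ℝ)) (by exact_mod_cast hb)
      (by
        have : ((1 + c) * (a / (1 + c)) : ℝ≥0) = a := by field_simp
        have h2 := congrArg (fun t : ℝ≥0 => (t : ℝ)) this
        simp only [NNReal.coe_mul, NNReal.coe_add, NNReal.coe_one] at h2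
        exact h2.le) C hC hfar hfst
    have h1 : Prod.fst '' K = univ := by
      rw [eq_univ_iff_forall] at hfst ⊢
      intro x
      obtain ⟨p, hp, rfl⟩ := hfst x
      exact ⟨p, hCK hp, rfl⟩
    have h2 : Prod.snd '' K = univ := by
      rw [eq_univ_iff_forall] at h1 ⊢
      intro x
      obtain ⟨p, hp, rfl⟩ := h1 x
      exact ⟨p.swap, hKs p hp, rfl⟩
    exact le_sSup ⟨a / (1 + c), rfl, K, ⟨hK, hKfar⟩, h1, h2⟩
  have hfinal : ((a / (1 + c) : ℝ≥0) : ℝ≥0∞) ≤ surjSpan X := by
    rcases hproj with h | h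
    · exact hmain C hC hfar h
    · refine hmain (Prod.swap '' C) (hC.image _ continuous_swap.continuousOn) ?_ ?_
      · rintro _ ⟨p, hp, rfl⟩
        simp only [Prod.fst_swap, Prod.snd_swap]
        rw [dist_comm]
        exact hfar p hp
      · rw [← image_comp]
        exact h
  have : (a : ℝ≥0∞) = (1 + c) * ((a / (1 + c) : ℝ≥0) : ℝ≥0∞) := by
    have h : a = (1 + c) * (a / (1 + c)) := by field_simp
    have h2 := congrArg (fun t : ℝ≥0 => (t : ℝ≥0∞)) h
    simp only [ENNReal.coe_mul, ENNReal.coe_add, ENNReal.coe_one] at h2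
    exact h2
  rw [this]
  exact mul_le_mul_right hfinal _

/-- **Lelek's inequality for continua of bounded turning.** Let `X` be a compact connected
metric space and `c` a constant such that any two points `x`, `y` lie in a connected subset of
the closed ball around `x` of radius `c · d(x, y)`. Then `σ₀*(X) ≤ (1 + c) σ*(X)`. For `c = 1`
(all closed balls connected, for instance geodesic spaces) this is `σ₀*(X) ≤ 2 σ*(X)`. -/
theorem result (X : Type) [MetricSpace X] [CompactSpace X] [ConnectedSpace X] (c : ℝ≥0)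
    (hT : ∀ x y : X, ∃ S : Set X, IsPreconnected S ∧ x ∈ S ∧ y ∈ S ∧
      S ⊆ Metric.closedBall x (c * dist x y)) :
    surjSemiSpan X ≤ (1 + c) * surjSpan X :=
  semispan_le hT

end Pool.Agent.Results.MP_c087c9_gt.BoundedTurning
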