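import Mathlib

set_option autoImplicit false

open Set ENNReal NNReal

namespace Pool.Agent.Results.MP_c087c9_gt.ClosedCurve

/-- `Far X a C`: `C` is a nonempty connected subset of `X × X` all of whose points
`(x, y)` satisfy `d(x, y) ≥ a`. -/
def Far (X : Type) [MetricSpace X] (a : ℝ≥0) (C : Set (X × X)) : Prop :=
  IsConnected C ∧ ∀ p ∈ C, (a : ℝ) ≤ dist p.1 p.2

/-- The surjective span `σ*(X)`, with values in `[0, ∞]`: the supremum of the real numbers
`a ≥ 0` for which there is a connected `C ⊆ X × X` with both projections equal to `X` and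
`d(x, y) ≥ a` for all `(x, y) ∈ C`. -/
noncomputable def surjSpan (X : Type) [MetricSpace X] : ℝ≥0∞ :=
  sSup {b : ℝ≥0∞ | ∃ a : ℝ≥0, b = (a : ℝ≥0∞) ∧ ∃ C : Set (X × X), Far X a C ∧
    Prod.fst '' C = univ ∧ Prod.snd '' C = univ}

/-- The surjective semi-span `σ₀*(X)`, with values in `[0, ∞]`: as `surjSpan`, but only one of
the two projections of `C` is required to be equal to `X`. -/
noncomputable def surjSemiSpan (X : Type) [MetricSpace X] : ℝ≥0∞ :=
  sSup {b : ℝ≥0∞ | ∃ a : ℝ≥0, b = (a : ℝ≥0∞) ∧ ∃ C : Set (X × X), Far X a C ∧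
    (Prod.fst '' C = univ ∨ Prod.snd '' C = univ)}

/-! ### The data -/

/-- The row `a` of the table of signs: bit `b` of the number `a` is the sign at `(a, b)`. -/
def sgTab : List ℕ :=
  [11184810, 5592404, 174760, 87376, 43680, 21824, 10880, 21760, 43520, 87040, 174080, 348160,
   663552, 327680, 663552, 1331264, 557216, 65872, 131752, 263508, 666280, 1398100, 2796200,
   5592404]
/-- The vertices of the polygon: the base 4 digits of the number `p` are the values of the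
coordinate `p` at the vertices `0, ..., 47`. -/
def gTab : List ℕ :=
  [39614081257132168796771975152,
   29671723904588658759568457667,
   66644868851134699412408762127,
   75965828869144240072287059007,
   78606762813935440488090824959,
   79228083999156952019060638719,
   79227765096168861628305969151,
   79226627560329394755112550399,
   79222111935999750934795190271,
   79203982510579572206897201151,
   79203983626050268213432811519,
   79222117792211616294892470271,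
   79222117792211616294766641151,
   79203983626050268212772208639,
   79203982510579572204215468031,
   79222111935999750924058427391,
   79226627560329394712163041279,
   79227765096168861456507318271,
   79228083999156951331865881599,
   79228150685289696204125371135,
   79228115198365772035869638335,
   79208630435245894686940856239,
   79203226857578700094592253871,
   79220298472834130662324371135,
   79220298473390465953864285887,
   79203226858126063371249516463,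
   79203226858109174872646877103,
   79220298473301801336183652031,
   79215747222620178921092464319,
   79179408055881103559576498095,
   79179424723052554051923733423,
   79215759149050458960332978879,
   79220256995330497603723689663,
   79203189530592238296403763119,
   79203828443373067897529948143,
   78912615120262195943178958335,
   77596948331824034936040373631,
   72936326236225965437606670175,
   72935759547597922523525656415,
   77593973236217391632892214655,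
   77584905180884931780124802431,
   72888157275764751300823875423,
   72743087441608636269572652895,
   76823283215763522159533620607,
   74502145642103434144097762687,
   60557115477351443569183817567,
   4932341786163961118477778903,
   19807040628566084398385987572]
/-- First coordinates of the vertices of the path. -/
def c1Tab : List ℤ :=
  [-19, -18, -17, -16, -15, -14, -13, -12, -11, -10, -9, -8, -7, -6, -5, -4, -3, -2, -1, 0, 1, 2,
   3, 4, 5, 6, 7, 8, 9, 10, 9, 8, 7, 6, 5, 4, 3, 2, 1, 0, 1, 2, 1, 0, 1, 2, 1, 0, 1, 2, 1, 0, 1,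
   2, 3, 4, 5, 6, 7, 8, 9, 10, 11, 12, 13, 14, 15, 16, 17, 18, 19, 20, 21, 22, 23, 24, 25, 26,
   27, 28, 29]
/-- Second coordinates of the vertices of the path. -/
def c2Tab : List ℤ :=
  [12, 12, 11, 10, 9, 8, 7, 6, 5, 4, 5, 6, 7, 8, 7, 6, 5, 4, 3, 2, 3, 4, 5, 6, 7, 8, 9, 10, 11,
   12, 13, 14, 15, 16, 17, 18, 19, 20, 21, 22, 23, 24, 25, 26, 27, 28, 29, 30, 31, 32, 33, 34,
   35, 36, 35, 34, 33, 32, 31, 30, 29, 28, 27, 26, 27, 28, 29, 30, 31, 32, 33, 34, 35, 36, 37,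
   38, 37, 36, 37, 38, 38]

/-- Signs at the points `(a, b)` (used for `a + b` odd), of period `24`. -/
def sg (a b : ℤ) : Bool := (sgTab.getD (a % 24).toNat 0).testBit (b % 24).toNat

/-- The coordinate `p` at the vertex `n` of the polygon, of period `48`. -/
def gg (p : Fin 48) (n : ℤ) : ℤ := ((gTab.getD p.1 0) / 4 ^ (n % 48).toNat % 4 : ℕ)

theorem sg_per (a b k l : ℤ) : sg (a + 24 * k) (b + 24 * l) = sg a b := by
  unfold sg
  rw [Int.add_mul_emod_self_left, Int.add_mul_emod_self_left]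

theorem gg_per (p : Fin 48) (n k : ℤ) : gg p (n + 48 * k) = gg p n := by
  unfold gg
  rw [Int.add_mul_emod_self_left]

/-! ### Finite checks -/

private theorem chkA : ∀ a < 24, ∀ b < 24, (a + b) % 2 = 0 ∨
    sg (a : ℕ) (b : ℕ) = sg ((a : ℕ) + 1) ((b : ℕ) + 1) ∨ ∀ p : Fin 48,
    |gg p (2 * (a : ℕ)) - gg p (2 * (b : ℕ) + 2)| ≤ 1 ∧
    |gg p (2 * (a : ℕ) + 1) - gg p (2 * (b : ℕ) + 1)| ≤ 1 ∧
    |gg p (2 * (a : ℕ) + 2) - gg p (2 * (b : ℕ))| ≤ 1 := by
  decide +kernel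

private theorem chkB : ∀ a < 24, ∀ b < 24, (a + b) % 2 = 0 ∨
    sg (a : ℕ) (b : ℕ) = sg ((a : ℕ) + 1) ((b : ℕ) - 1) ∨ ∀ p : Fin 48,
    |gg p (2 * (a : ℕ)) - gg p (2 * (b : ℕ) - 2)| ≤ 1 ∧
    |gg p (2 * (a : ℕ) + 1) - gg p (2 * (b : ℕ) - 1)| ≤ 1 ∧
    |gg p (2 * (a : ℕ) + 2) - gg p (2 * (b : ℕ))| ≤ 1 := by
  decide +kernel

private theorem chk0 : ∀ a < 24, a % 2 = 1 → sg 0 (a : ℕ) = true ∧ sg (a : ℕ) 0 = false := by
  decide +kernel

private theorem chkZ : ∀ p : Fin 48, ∀ n < 48,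
    gg p (n : ℕ) = 0 ↔ (n : ℤ) = p.1 ∨ (n : ℤ) = ((p.1 : ℤ) + 1) % 48 := by
  decide +kernel

/-- The vertices of the path. -/
def c1 (n : ℤ) : ℤ := c1Tab.getD n.toNat 0

/-- The vertices of the path. -/
def c2 (n : ℤ) : ℤ := c2Tab.getD n.toNat 0

private theorem chkC : ∀ n < 80, |c1 ((n : ℕ) + 1) - c1 (n : ℕ)| ≤ 1 ∧
    |c2 ((n : ℕ) + 1) - c2 (n : ℕ)| ≤ 1 ∧ ∃ p : Fin 48, gg p (c1 (n : ℕ)) = 0 ∧
      gg p (c1 ((n : ℕ) + 1)) = 0 ∧ gg p (c2 (n : ℕ)) = 3 ∧ gg p (c2 ((n : ℕ) + 1)) = 3 := by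
  decide +kernel

/-! ### Linear interpolation -/

/-- Linear interpolation of a sequence. -/
noncomputable def lin (g : ℤ → ℤ) (t : ℝ) : ℝ :=
  (1 - Int.fract t) * g ⌊t⌋ + Int.fract t * g (⌊t⌋ + 1)

theorem lin_add (g : ℤ → ℤ) (m : ℤ) {r : ℝ} (h0 : 0 ≤ r) (h1 : r ≤ 1) :
    lin g (m + r) = (1 - r) * g m + r * g (m + 1) := by
  rcases h1.lt_or_eq with h1 | rfl
  · have hf : ⌊(m : ℝ) + r⌋ = m := by
      rw [Int.floor_eq_iff]
      exact ⟨by linarith, by linarith⟩
    have hr : Int.fract ((m : ℝ) + r) = r := by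
      rw [Int.fract, hf]
      ring
    unfold lin
    rw [hf, hr]
  · have hf : ⌊(m : ℝ) + 1⌋ = m + 1 := by
      rw [Int.floor_eq_iff]
      push_cast
      exact ⟨le_refl _, by linarith⟩
    have hr : Int.fract ((m : ℝ) + 1) = 0 := by
      rw [Int.fract, hf]
      push_cast
      ring
    unfold lin
    rw [hf, hr]
    ring

theorem lin_conv (g : ℤ → ℤ) {m m' : ℤ} (h : |m' - m| ≤ 1) {r : ℝ} (h0 : 0 ≤ r) (h1 : r ≤ 1) :
    lin g ((1 - r) * m + r * m') = (1 - r) * g m + r * g m' := by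
  have h2 : m' = m ∨ m' = m + 1 ∨ m' = m - 1 := by
    rw [abs_le] at h
    omega
  rcases h2 with rfl | rfl | rfl
  · have h3 := lin_add g m' (le_refl 0) zero_le_one
    rw [add_zero] at h3
    rw [show (1 - r) * (m' : ℝ) + r * m' = m' by ring, h3]
    ring
  · rw [← lin_add g m h0 h1]
    congr 1
    push_cast
    ring
  · have h3 := lin_add g (m - 1) (sub_nonneg.2 h1) (by linarith : 1 - r ≤ 1)
    rw [sub_add_cancel] at h3
    rw [show (1 - r) * (m : ℝ) + r * ((m - 1 : ℤ) : ℝ) = ((m - 1 : ℤ) : ℝ) + (1 - r) by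
      push_cast; ring, h3]
    ring

theorem lin_int (g : ℤ → ℤ) (m : ℤ) : lin g m = g m := by
  have h3 := lin_add g m (le_refl 0) zero_le_one
  rw [add_zero] at h3
  rw [h3]
  ring

theorem lin_contOn (g : ℤ → ℤ) (m : ℤ) : ContinuousOn (lin g) (Icc m (m + 1)) := by
  have h1 : ContinuousOn (fun t : ℝ => (1 - (t - m)) * (g m : ℝ) + (t - m) * g (m + 1))
      (Icc (m : ℝ) (m + 1)) := by fun_prop
  refine h1.congr fun t ht => ?_
  have h2 := lin_add g m (sub_nonneg.2 ht.1) (by linarith [ht.2] : t - m ≤ 1)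
  rw [add_sub_cancel] at h2
  exact h2

theorem lin_cont (g : ℤ → ℤ) : Continuous (lin g) := by
  rw [continuous_iff_continuousAt]
  intro t
  have h1 := lin_contOn g (⌊t⌋ - 1)
  have h2 := lin_contOn g ⌊t⌋
  have h3 := h1.union_of_isClosed h2 isClosed_Icc isClosed_Icc
  refine h3.continuousAt ?_
  have h4 : Icc (((⌊t⌋ - 1 : ℤ) : ℝ)) (((⌊t⌋ - 1 : ℤ) : ℝ) + 1) ∪ Icc (⌊t⌋ : ℝ) (⌊t⌋ + 1) =
      Icc ((⌊t⌋ : ℝ) - 1) (⌊t⌋ + 1) := by
    push_cast
    rw [sub_add_cancel]
    exact Icc_union_Icc_eq_Icc (by linarith) (by linarith)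
  rw [h4]
  exact Icc_mem_nhds (by linarith [Int.floor_le t]) (by linarith [Int.lt_floor_add_one t])

theorem lin_per {g : ℤ → ℤ} (hg : ∀ n k, g (n + 48 * k) = g n) (t : ℝ) (k : ℤ) :
    lin g (t + 48 * k) = lin g t := by
  have h1 : t + 48 * (k : ℝ) = t + ((48 * k : ℤ) : ℝ) := by push_cast; ring
  unfold lin
  rw [h1, Int.floor_add_intCast, Int.fract_add_intCast, hg,
    show ⌊t⌋ + 48 * k + 1 = (⌊t⌋ + 1) + 48 * k by ring, hg]

/-! ### The polygon -/

/-- The parametrisation of the polygon in `ℝ^48` with the maximum norm. -/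
noncomputable def EE (t : ℝ) : Fin 48 → ℝ := fun p => lin (gg p) t

theorem EE_cont : Continuous EE := continuous_pi fun p => lin_cont (gg p)

theorem EE_per (t : ℝ) (k : ℤ) : EE (t + 48 * k) = EE t := by
  funext p
  exact lin_per (gg_per p) t k

theorem gg_nonneg (p : Fin 48) (n : ℤ) : 0 ≤ gg p n := Int.natCast_nonneg _

theorem gg_zero (p : Fin 48) (n : ℤ) : gg p n = 0 ↔ n % 48 = p.1 ∨ n % 48 = ((p.1 : ℤ) + 1) % 48 := by
  have h0 : 0 ≤ n % 48 := Int.emod_nonneg _ (by norm_num)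
  have h1 : n % 48 < 48 := Int.emod_lt_of_pos _ (by norm_num)
  have h2 := chkZ p (n % 48).toNat (by omega)
  rw [Int.toNat_of_nonneg h0] at h2
  rw [← h2]
  have h3 := gg_per p (n % 48) (n / 48)
  rw [Int.emod_add_mul_ediv] at h3
  rw [h3]

/-- The parametrisation is injective modulo the period. -/
theorem EE_inj {s t : ℝ} (h : EE s = EE t) : ∃ k : ℤ, t = s + 48 * k := by
  have hs0 := Int.fract_nonneg s
  have hs1 := Int.fract_lt_one s
  have ht0 := Int.fract_nonneg t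
  have ht1 := Int.fract_lt_one t
  have val : ∀ (p : Fin 48), (1 - Int.fract s) * (gg p ⌊s⌋ : ℝ) + Int.fract s * gg p (⌊s⌋ + 1) =
      (1 - Int.fract t) * (gg p ⌊t⌋ : ℝ) + Int.fract t * gg p (⌊t⌋ + 1) := fun p => congrFun h p
  have nn : ∀ (p : Fin 48) (n : ℤ), (0 : ℝ) ≤ gg p n := fun p n => by exact_mod_cast gg_nonneg p n
  -- a coordinate which vanishes on the edge of one of the points
  have key : ∀ (a b : ℤ) (u v : ℝ), 0 ≤ v → v < 1 → (∀ p : Fin 48,
      (1 - u) * (gg p a : ℝ) + u * gg p (a + 1) = (1 - v) * (gg p b : ℝ) + v * gg p (b + 1)) →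
      b % 48 = a % 48 ∨ (v = 0 ∧ b % 48 = (a + 1) % 48) := by
    intro a b u v hv0 hv1 hval
    have ha0 : 0 ≤ a % 48 := Int.emod_nonneg _ (by norm_num)
    have ha1 : a % 48 < 48 := Int.emod_lt_of_pos _ (by norm_num)
    have h1 := hval ⟨(a % 48).toNat, by omega⟩
    set p : Fin 48 := ⟨(a % 48).toNat, by omega⟩ with hp
    have hpv : ((p.1 : ℕ) : ℤ) = a % 48 := by
      rw [hp]
      exact Int.toNat_of_nonneg ha0
    have hz0 : gg p a = 0 := (gg_zero p a).2 (Or.inl hpv.symm)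
    have hz1 : gg p (a + 1) = 0 := (gg_zero p (a + 1)).2 (Or.inr (by rw [hpv]; omega))
    rw [hz0, hz1, Int.cast_zero, mul_zero, mul_zero, add_zero] at h1
    have h2 : (1 - v) * (gg p b : ℝ) = 0 := by
      have e1 := mul_nonneg (sub_nonneg.2 hv1.le) (nn p b)
      have e2 := mul_nonneg hv0 (nn p (b + 1))
      linarith
    have h3 : v * (gg p (b + 1) : ℝ) = 0 := by linarith
    have h4 : gg p b = 0 := by
      rcases mul_eq_zero.1 h2 with h | h
      · linarith
      · exact_mod_cast h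
    rcases (gg_zero p b).1 h4 with h5 | h5
    · left
      rw [h5, hpv]
    · rw [hpv] at h5
      rcases mul_eq_zero.1 h3 with h | h
      · right
        exact ⟨h, by omega⟩
      · have h6 : gg p (b + 1) = 0 := by exact_mod_cast h
        rcases (gg_zero p (b + 1)).1 h6 with h7 | h7
        · rw [hpv] at h7
          omega
        · rw [hpv] at h7
          left
          omega
  have hfl : ⌊t⌋ % 48 = ⌊s⌋ % 48 := by
    rcases key ⌊s⌋ ⌊t⌋ _ _ ht0 ht1 val with h1 | ⟨_, h1⟩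
    · exact h1
    · rcases key ⌊t⌋ ⌊s⌋ _ _ hs0 hs1 (fun p => (val p).symm) with h2 | ⟨_, h2⟩
      · exact h2.symm
      · omega
  -- another coordinate
  have hfr : Int.fract s = Int.fract t := by
    have ha0 : 0 ≤ (⌊s⌋ + 1) % 48 := Int.emod_nonneg _ (by norm_num)
    have ha1 : (⌊s⌋ + 1) % 48 < 48 := Int.emod_lt_of_pos _ (by norm_num)
    have h1 := val ⟨((⌊s⌋ + 1) % 48).toNat, by omega⟩
    set p : Fin 48 := ⟨((⌊s⌋ + 1) % 48).toNat, by omega⟩ with hp
    have hpv : ((p.1 : ℕ) : ℤ) = (⌊s⌋ + 1) % 48 := by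
      rw [hp]
      exact Int.toNat_of_nonneg ha0
    have hz1 : gg p (⌊s⌋ + 1) = 0 := (gg_zero p _).2 (Or.inl hpv.symm)
    have hz2 : gg p (⌊t⌋ + 1) = 0 := (gg_zero p _).2 (Or.inl (by rw [hpv]; omega))
    have hz3 : gg p ⌊s⌋ = gg p ⌊t⌋ := by
      have e1 := gg_per p ⌊s⌋ ((⌊t⌋ - ⌊s⌋) / 48)
      rw [← e1]
      congr 1
      omega
    have hz4 : gg p ⌊t⌋ ≠ 0 := fun h => by
      rcases (gg_zero p _).1 h with h | h
      · rw [hpv] at h
        omega
      · rw [hpv] at h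
        omega
    rw [hz1, hz2, hz3, Int.cast_zero, mul_zero, mul_zero, add_zero, add_zero] at h1
    have h5 : (gg p ⌊t⌋ : ℝ) ≠ 0 := by exact_mod_cast hz4
    have h6 := mul_right_cancel₀ h5 h1
    linarith
  refine ⟨(⌊t⌋ - ⌊s⌋) / 48, ?_⟩
  have h1 : ⌊t⌋ = ⌊s⌋ + 48 * ((⌊t⌋ - ⌊s⌋) / 48) := by omega
  have h2 : (⌊t⌋ : ℝ) = ⌊s⌋ + 48 * (((⌊t⌋ - ⌊s⌋) / 48 : ℤ) : ℝ) := by
    have h3 := congrArg (fun z : ℤ => (z : ℝ)) h1
    push_cast at h3
    convert h3 using 2
  calc t = ⌊t⌋ + Int.fract t := (Int.floor_add_fract t).symm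
    _ = _ := by
      rw [h2, ← hfr]
      have := Int.floor_add_fract s
      linarith

/-- The polygon: a simple closed curve in `ℝ^48` with the maximum norm. -/
def Poly : Set (Fin 48 → ℝ) := range EE

/-- The parametrisation as a map to the polygon. -/
noncomputable def ee (t : ℝ) : Poly := ⟨EE t, mem_range_self t⟩

theorem ee_cont : Continuous ee := EE_cont.subtype_mk _

theorem ee_surj (x : Poly) : ∃ t, ee t = x := by
  obtain ⟨_, t, rfl⟩ := x
  exact ⟨t, rfl⟩

theorem ee_per (t : ℝ) (k : ℤ) : ee (t + 48 * k) = ee t := Subtype.ext (EE_per t k)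

theorem ee_inj {s t : ℝ} (h : ee s = ee t) : ∃ k : ℤ, t = s + 48 * k :=
  EE_inj (congrArg Subtype.val h)

theorem ee_periodic : Function.Periodic ee 48 := fun t => by
  have := ee_per t 1
  rwa [Int.cast_one, mul_one] at this

/-- The polygon is homeomorphic to the circle. -/
theorem poly_circle : Nonempty (Poly ≃ₜ Circle) := by
  have : Fact ((0 : ℝ) < 48) := ⟨by norm_num⟩
  have h1 : Continuous (ee_periodic.lift) := by
    refine continuous_coinduced_dom.2 ?_
    exact ee_cont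
  have h2 : Function.Bijective (ee_periodic.lift) := by
    constructor
    · intro x y hxy
      induction x using QuotientAddGroup.induction_on with
      | H s =>
        induction y using QuotientAddGroup.induction_on with
        | H t =>
          obtain ⟨k, hk⟩ := ee_inj (s := s) (t := t) hxy
          rw [QuotientAddGroup.eq]
          refine ⟨k, ?_⟩
          rw [hk]
          simp [mul_comm]
    · intro x
      obtain ⟨t, rfl⟩ := ee_surj x
      exact ⟨(t : AddCircle (48 : ℝ)), rfl⟩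
  have h3 : (AddCircle (48 : ℝ)) ≃ₜ Poly :=
    Continuous.homeoOfEquivCompactToT2 (f := Equiv.ofBijective _ h2) h1
  exact ⟨h3.symm.trans (AddCircle.homeomorphCircle (by norm_num))⟩

theorem poly_compact : IsCompact Poly := by
  obtain ⟨h⟩ := poly_circle
  have : CompactSpace Poly := h.symm.compactSpace
  exact isCompact_iff_compactSpace.2 inferInstance

theorem poly_connected : IsConnected Poly := isConnected_range EE_cont

/-! ### The semi-span -/

/-- The path. -/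
noncomputable def cc (t : ℝ) : Poly × Poly := (ee (lin c1 t), ee (lin c2 t))

theorem cc_dist {t : ℝ} (h0 : 0 ≤ t) (h1 : t ≤ 80) : 3 ≤ dist (cc t).1 (cc t).2 := by
  obtain ⟨n, r, hn, hr0, hr1, rfl⟩ : ∃ (n : ℕ) (r : ℝ), n < 80 ∧ 0 ≤ r ∧ r ≤ 1 ∧ t = n + r := by
    rcases h1.lt_or_eq with h | h
    · refine ⟨⌊t⌋₊, t - ⌊t⌋₊, ?_, ?_, ?_, by ring⟩
      · exact (Nat.floor_lt h0).2 (by exact_mod_cast h)
      · exact sub_nonneg.2 (Nat.floor_le h0)
      · have := (Nat.lt_floor_add_one t).le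
        linarith
    · exact ⟨79, 1, by norm_num, zero_le_one, le_refl _, by rw [h]; norm_num⟩
  obtain ⟨h1, h2, p, hp1, hp2, hp3, hp4⟩ := chkC n hn
  have e1 : lin c1 ((n : ℝ) + r) = (1 - r) * (c1 n : ℤ) + r * (c1 (n + 1) : ℤ) := by
    have := lin_add c1 n hr0 hr1
    rwa [Int.cast_natCast] at this
  have e2 : lin c2 ((n : ℝ) + r) = (1 - r) * (c2 n : ℤ) + r * (c2 (n + 1) : ℤ) := by
    have := lin_add c2 n hr0 hr1
    rwa [Int.cast_natCast] at this
  have f1 : EE (lin c1 ((n : ℝ) + r)) p = 0 := by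
    change lin (gg p) (lin c1 ((n : ℝ) + r)) = 0
    rw [e1, lin_conv (gg p) h1 hr0 hr1, hp1, hp2]
    simp
  have f2 : EE (lin c2 ((n : ℝ) + r)) p = 3 := by
    change lin (gg p) (lin c2 ((n : ℝ) + r)) = 3
    rw [e2, lin_conv (gg p) h2 hr0 hr1, hp3, hp4]
    push_cast
    ring
  have h3 := dist_le_pi_dist (EE (lin c1 ((n : ℝ) + r))) (EE (lin c2 ((n : ℝ) + r))) p
  rw [f1, f2, Real.dist_eq] at h3
  norm_num at h3
  exact h3

theorem three_le_semi : 3 ≤ surjSemiSpan Poly := by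
  refine le_sSup ⟨3, rfl, cc '' Icc 0 80, ⟨?_, ?_⟩, Or.inl ?_⟩
  · refine (isConnected_Icc (by norm_num)).image _ (Continuous.continuousOn ?_)
    exact (ee_cont.comp (lin_cont c1)).prodMk (ee_cont.comp (lin_cont c2))
  · rintro _ ⟨t, ht, rfl⟩
    exact cc_dist ht.1 ht.2
  · rw [eq_univ_iff_forall]
    intro x
    obtain ⟨s, rfl⟩ := ee_surj x
    set k : ℤ := ⌊(s + 19) / 48⌋ with hk
    have h1 : (k : ℝ) ≤ (s + 19) / 48 := Int.floor_le _
    have h2 : (s + 19) / 48 < k + 1 := Int.lt_floor_add_one _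
    have h3 : s - 48 * k ∈ Icc (lin c1 0) (lin c1 80) := by
      have e1 : lin c1 0 = -19 := by
        have := lin_int c1 0
        rw [Int.cast_zero] at this
        rw [this]
        norm_num [c1, c1Tab]
      have e2 : lin c1 80 = 29 := by
        have := lin_int c1 80
        rw [show ((80 : ℤ) : ℝ) = 80 by norm_num] at this
        rw [this]
        have : c1 80 = 29 := by decide +kernel
        rw [this]
        norm_num
      rw [e1, e2]
      constructor <;> linarith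
    obtain ⟨t, ht, hts⟩ := intermediate_value_Icc (by norm_num : (0 : ℝ) ≤ 80)
      (lin_cont c1).continuousOn h3
    refine ⟨cc t, ⟨t, ht, rfl⟩, ?_⟩
    change ee (lin c1 t) = ee s
    rw [hts]
    have := ee_per (s - 48 * k) k
    rw [sub_add_cancel] at this
    exact this.symm

/-! ### The span -/

/-- The square (ball of the `1`-norm) around the point `(2 a, 2 b)`. -/
def Dm (a b : ℤ) : Set (ℝ × ℝ) := {q | |q.1 - 2 * a| + |q.2 - 2 * b| ≤ 2}

theorem Dm_compact (a b : ℤ) : IsCompact (Dm a b) := by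
  refine Metric.isCompact_of_isClosed_isBounded ?_ ?_
  · exact isClosed_le (by fun_prop) continuous_const
  · refine (Metric.isBounded_iff_subset_closedBall ((2 * a : ℝ), (2 * b : ℝ))).2 ⟨2, ?_⟩
    intro q hq
    rw [Metric.mem_closedBall, Prod.dist_eq, max_le_iff, Real.dist_eq, Real.dist_eq]
    have h1 : |q.1 - 2 * a| + |q.2 - 2 * b| ≤ 2 := hq
    have h2 := abs_nonneg (q.1 - 2 * a)
    have h3 := abs_nonneg (q.2 - 2 * b)
    exact ⟨by linarith, by linarith⟩

theorem Dm_shift {a b k l : ℤ} {x y : ℝ} (h : (x, y) ∈ Dm a b) :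
    (x + 48 * k, y + 48 * l) ∈ Dm (a + 24 * k) (b + 24 * l) := by
  change |x + 48 * k - 2 * ((a + 24 * k : ℤ) : ℝ)| + |y + 48 * l - 2 * ((b + 24 * l : ℤ) : ℝ)| ≤ 2
  push_cast
  rw [show x + 48 * (k : ℝ) - 2 * (a + 24 * k) = x - 2 * a by ring,
    show y + 48 * (l : ℝ) - 2 * (b + 24 * l) = y - 2 * b by ring]
  exact h

/-- The squares around the odd points cover the plane. -/
theorem Dm_cover (x y : ℝ) : ∃ a b : ℤ, (a + b) % 2 = 1 ∧ (x, y) ∈ Dm a b := by
  have hx0 := Int.floor_le (x / 2)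
  have hx1 := Int.lt_floor_add_one (x / 2)
  have hy0 := Int.floor_le (y / 2)
  have hy1 := Int.lt_floor_add_one (y / 2)
  set i := ⌊x / 2⌋
  set j := ⌊y / 2⌋
  rcases Int.emod_two_eq_zero_or_one (i + j) with h | h
  · by_cases hxy : y - 2 * j ≤ x - 2 * i
    · refine ⟨i + 1, j, by omega, ?_⟩
      change |x - 2 * ((i + 1 : ℤ) : ℝ)| + |y - 2 * j| ≤ 2
      push_cast
      rw [abs_of_nonpos (by linarith), abs_of_nonneg (by linarith)]
      linarith
    · refine ⟨i, j + 1, by omega, ?_⟩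
      change |x - 2 * i| + |y - 2 * ((j + 1 : ℤ) : ℝ)| ≤ 2
      push_cast
      rw [abs_of_nonneg (by linarith), abs_of_nonpos (by linarith)]
      linarith
  · by_cases hxy : (x - 2 * i) + (y - 2 * j) ≤ 2
    · refine ⟨i, j, h, ?_⟩
      change |x - 2 * i| + |y - 2 * j| ≤ 2
      rw [abs_of_nonneg (by linarith), abs_of_nonneg (by linarith)]
      exact hxy
    · refine ⟨i + 1, j + 1, by omega, ?_⟩
      change |x - 2 * ((i + 1 : ℤ) : ℝ)| + |y - 2 * ((j + 1 : ℤ) : ℝ)| ≤ 2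
      push_cast
      rw [abs_of_nonpos (by linarith), abs_of_nonpos (by linarith)]
      linarith

/-- The set of the pairs in the squares with sign `c`. -/
def US (c : Bool) : Set (Poly × Poly) :=
  {P | ∃ a b : ℤ, (a + b) % 2 = 1 ∧ sg a b = c ∧ ∃ x y : ℝ, (x, y) ∈ Dm a b ∧ P = (ee x, ee y)}

theorem US_closed (c : Bool) : IsClosed (US c) := by
  have h1 : US c = ⋃ a ∈ {a ∈ Finset.range 24 ×ˢ Finset.range 24 |
      (((a.1 : ℕ) : ℤ) + (a.2 : ℕ)) % 2 = 1 ∧ sg (a.1 : ℕ) (a.2 : ℕ) = c},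
      (fun q : ℝ × ℝ => (ee q.1, ee q.2)) '' Dm (a.1 : ℕ) (a.2 : ℕ) := by
    ext P
    simp only [mem_iUnion]
    constructor
    · rintro ⟨a, b, hab, hs, x, y, hxy, rfl⟩
      have ha0 : 0 ≤ a % 24 := Int.emod_nonneg _ (by norm_num)
      have ha1 : a % 24 < 24 := Int.emod_lt_of_pos _ (by norm_num)
      have hb0 : 0 ≤ b % 24 := Int.emod_nonneg _ (by norm_num)
      have hb1 : b % 24 < 24 := Int.emod_lt_of_pos _ (by norm_num)
      have ea : (((a % 24).toNat : ℕ) : ℤ) = a + 24 * (-(a / 24)) := by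
        rw [Int.toNat_of_nonneg ha0]
        omega
      have eb : (((b % 24).toNat : ℕ) : ℤ) = b + 24 * (-(b / 24)) := by
        rw [Int.toNat_of_nonneg hb0]
        omega
      refine ⟨((a % 24).toNat, (b % 24).toNat), ?_, ?_⟩
      · rw [Finset.mem_filter, Finset.mem_product, Finset.mem_range, Finset.mem_range]
        refine ⟨⟨by omega, by omega⟩, ?_, ?_⟩
        · omega
        · rw [ea, eb, sg_per]
          exact hs
      · refine ⟨(x + 48 * ((-(a / 24) : ℤ) : ℝ), y + 48 * ((-(b / 24) : ℤ) : ℝ)), ?_, ?_⟩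
        · rw [ea, eb]
          exact Dm_shift hxy
        · exact Prod.ext (ee_per _ _) (ee_per _ _)
    · rintro ⟨a, ha, q, hq, rfl⟩
      rw [Finset.mem_filter] at ha
      exact ⟨a.1, a.2, ha.2.1, ha.2.2, q.1, q.2, hq, rfl⟩
  rw [h1]
  refine Set.Finite.isClosed_biUnion (Finset.finite_toSet _) fun a _ => ?_
  refine ((Dm_compact _ _).image ?_).isClosed
  exact (ee_cont.comp continuous_fst).prodMk (ee_cont.comp continuous_snd)

theorem US_cover (P : Poly × Poly) : P ∈ US true ∨ P ∈ US false := by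
  obtain ⟨x, hx⟩ := ee_surj P.1
  obtain ⟨y, hy⟩ := ee_surj P.2
  obtain ⟨a, b, hab, hxy⟩ := Dm_cover x y
  have hP : P = (ee x, ee y) := Prod.ext hx.symm hy.symm
  cases hs : sg a b
  · exact Or.inr ⟨a, b, hab, hs, x, y, hxy, hP⟩
  · exact Or.inl ⟨a, b, hab, hs, x, y, hxy, hP⟩

private theorem chkA' {a b : ℤ} (hab : (a + b) % 2 = 1) (hs : sg a b ≠ sg (a + 1) (b + 1))
    (p : Fin 48) : |gg p (2 * a) - gg p (2 * b + 2)| ≤ 1 ∧
      |gg p (2 * a + 1) - gg p (2 * b + 1)| ≤ 1 ∧ |gg p (2 * a + 2) - gg p (2 * b)| ≤ 1 := by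
  have ha0 : 0 ≤ a % 24 := Int.emod_nonneg _ (by norm_num)
  have ha1 : a % 24 < 24 := Int.emod_lt_of_pos _ (by norm_num)
  have hb0 : 0 ≤ b % 24 := Int.emod_nonneg _ (by norm_num)
  have hb1 : b % 24 < 24 := Int.emod_lt_of_pos _ (by norm_num)
  obtain ⟨a', ha'⟩ := Int.eq_ofNat_of_zero_le ha0
  obtain ⟨b', hb'⟩ := Int.eq_ofNat_of_zero_le hb0
  have ea : a = (a' : ℤ) + 24 * (a / 24) := by omega
  have eb : b = (b' : ℤ) + 24 * (b / 24) := by omega
  have h := chkA a' (by omega) b' (by omega)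
  rcases h with h | h | h
  · omega
  · exfalso
    apply hs
    rw [ea, eb, sg_per, h, show (a' : ℤ) + 24 * (a / 24) + 1 = ((a' : ℤ) + 1) + 24 * (a / 24) by ring,
      show (b' : ℤ) + 24 * (b / 24) + 1 = ((b' : ℤ) + 1) + 24 * (b / 24) by ring, sg_per]
  · have h2 := h p
    have per : ∀ n k m : ℤ, m = n + 48 * k → gg p m = gg p n := fun n k m hm => by
      rw [hm, gg_per]
    rw [per (2 * (a' : ℤ)) (a / 24) (2 * a) (by omega),
      per (2 * (b' : ℤ) + 2) (b / 24) (2 * b + 2) (by omega),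
      per (2 * (a' : ℤ) + 1) (a / 24) (2 * a + 1) (by omega),
      per (2 * (b' : ℤ) + 1) (b / 24) (2 * b + 1) (by omega),
      per (2 * (a' : ℤ) + 2) (a / 24) (2 * a + 2) (by omega),
      per (2 * (b' : ℤ)) (b / 24) (2 * b) (by omega)]
    exact h2

private theorem chkB' {a b : ℤ} (hab : (a + b) % 2 = 1) (hs : sg a b ≠ sg (a + 1) (b - 1))
    (p : Fin 48) : |gg p (2 * a) - gg p (2 * b - 2)| ≤ 1 ∧
      |gg p (2 * a + 1) - gg p (2 * b - 1)| ≤ 1 ∧ |gg p (2 * a + 2) - gg p (2 * b)| ≤ 1 := by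
  have ha0 : 0 ≤ a % 24 := Int.emod_nonneg _ (by norm_num)
  have ha1 : a % 24 < 24 := Int.emod_lt_of_pos _ (by norm_num)
  have hb0 : 0 ≤ b % 24 := Int.emod_nonneg _ (by norm_num)
  have hb1 : b % 24 < 24 := Int.emod_lt_of_pos _ (by norm_num)
  obtain ⟨a', ha'⟩ := Int.eq_ofNat_of_zero_le ha0
  obtain ⟨b', hb'⟩ := Int.eq_ofNat_of_zero_le hb0
  have ea : a = (a' : ℤ) + 24 * (a / 24) := by omega
  have eb : b = (b' : ℤ) + 24 * (b / 24) := by omega
  have h := chkB a' (by omega) b' (by omega)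
  rcases h with h | h | h
  · omega
  · exfalso
    apply hs
    rw [ea, eb, sg_per, h, show (a' : ℤ) + 24 * (a / 24) + 1 = ((a' : ℤ) + 1) + 24 * (a / 24) by ring,
      show (b' : ℤ) + 24 * (b / 24) - 1 = ((b' : ℤ) - 1) + 24 * (b / 24) by ring, sg_per]
  · have h2 := h p
    have per : ∀ n k m : ℤ, m = n + 48 * k → gg p m = gg p n := fun n k m hm => by
      rw [hm, gg_per]
    rw [per (2 * (a' : ℤ)) (a / 24) (2 * a) (by omega),
      per (2 * (b' : ℤ) - 2) (b / 24) (2 * b - 2) (by omega),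
      per (2 * (a' : ℤ) + 1) (a / 24) (2 * a + 1) (by omega),
      per (2 * (b' : ℤ) - 1) (b / 24) (2 * b - 1) (by omega),
      per (2 * (a' : ℤ) + 2) (a / 24) (2 * a + 2) (by omega),
      per (2 * (b' : ℤ)) (b / 24) (2 * b) (by omega)]
    exact h2

private theorem conv_le {r : ℝ} (h0 : 0 ≤ r) (h1 : r ≤ 1) {u v u' v' : ℤ} (h : |u - v| ≤ 1)
    (h' : |u' - v'| ≤ 1) : |((1 - r) * (u : ℝ) + r * u') - ((1 - r) * v + r * v')| ≤ 1 := by
  have e : |(u : ℝ) - v| ≤ 1 := by exact_mod_cast h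
  have e' : |(u' : ℝ) - v'| ≤ 1 := by exact_mod_cast h'
  rw [abs_le] at e e' ⊢
  constructor <;> nlinarith

/-- Pairs on the common side of two squares with different signs, first direction. -/
private theorem edgeA {a b : ℤ} (hab : (a + b) % 2 = 1) (hs : sg a b ≠ sg (a + 1) (b + 1)) {r : ℝ}
    (h0 : 0 ≤ r) (h2 : r ≤ 2) : dist (EE (2 * a + r)) (EE (2 * b + 2 - r)) ≤ 1 := by
  rw [dist_pi_le_iff zero_le_one]
  intro p
  obtain ⟨k1, k2, k3⟩ := chkA' hab hs p
  rw [Real.dist_eq]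
  change |lin (gg p) (2 * a + r) - lin (gg p) (2 * b + 2 - r)| ≤ 1
  rcases le_total r 1 with h1 | h1
  · have e1 := lin_conv (gg p) (m := 2 * a) (m' := 2 * a + 1) (by simp) h0 h1
    have e2 := lin_conv (gg p) (m := 2 * b + 2) (m' := 2 * b + 1) (by norm_num) h0 h1
    rw [show (2 * (a : ℝ) + r) = (1 - r) * ((2 * a : ℤ) : ℝ) + r * ((2 * a + 1 : ℤ) : ℝ) by
      push_cast; ring, e1, show (2 * (b : ℝ) + 2 - r) = (1 - r) * ((2 * b + 2 : ℤ) : ℝ) +
        r * ((2 * b + 1 : ℤ) : ℝ) by push_cast; ring, e2]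
    exact conv_le h0 h1 k1 k2
  · have h3 : 0 ≤ r - 1 := by linarith
    have h4 : r - 1 ≤ 1 := by linarith
    have e1 := lin_conv (gg p) (m := 2 * a + 1) (m' := 2 * a + 2) (by norm_num) h3 h4
    have e2 := lin_conv (gg p) (m := 2 * b + 1) (m' := 2 * b) (by norm_num) h3 h4
    rw [show (2 * (a : ℝ) + r) = (1 - (r - 1)) * ((2 * a + 1 : ℤ) : ℝ) + (r - 1) *
      ((2 * a + 2 : ℤ) : ℝ) by push_cast; ring, e1, show (2 * (b : ℝ) + 2 - r) =
      (1 - (r - 1)) * ((2 * b + 1 : ℤ) : ℝ) + (r - 1) * ((2 * b : ℤ) : ℝ) by push_cast; ring, e2]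
    exact conv_le h3 h4 k2 k3

/-- Pairs on the common side of two squares with different signs, second direction. -/
private theorem edgeB {a b : ℤ} (hab : (a + b) % 2 = 1) (hs : sg a b ≠ sg (a + 1) (b - 1)) {r : ℝ}
    (h0 : 0 ≤ r) (h2 : r ≤ 2) : dist (EE (2 * a + r)) (EE (2 * b - 2 + r)) ≤ 1 := by
  rw [dist_pi_le_iff zero_le_one]
  intro p
  obtain ⟨k1, k2, k3⟩ := chkB' hab hs p
  rw [Real.dist_eq]
  change |lin (gg p) (2 * a + r) - lin (gg p) (2 * b - 2 + r)| ≤ 1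
  rcases le_total r 1 with h1 | h1
  · have e1 := lin_conv (gg p) (m := 2 * a) (m' := 2 * a + 1) (by simp) h0 h1
    have e2 := lin_conv (gg p) (m := 2 * b - 2) (m' := 2 * b - 1) (by norm_num) h0 h1
    rw [show (2 * (a : ℝ) + r) = (1 - r) * ((2 * a : ℤ) : ℝ) + r * ((2 * a + 1 : ℤ) : ℝ) by
      push_cast; ring, e1, show (2 * (b : ℝ) - 2 + r) = (1 - r) * ((2 * b - 2 : ℤ) : ℝ) +
        r * ((2 * b - 1 : ℤ) : ℝ) by push_cast; ring, e2]
    exact conv_le h0 h1 k1 k2
  · have h3 : 0 ≤ r - 1 := by linarith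
    have h4 : r - 1 ≤ 1 := by linarith
    have e1 := lin_conv (gg p) (m := 2 * a + 1) (m' := 2 * a + 2) (by norm_num) h3 h4
    have e2 := lin_conv (gg p) (m := 2 * b - 1) (m' := 2 * b) (by norm_num) h3 h4
    rw [show (2 * (a : ℝ) + r) = (1 - (r - 1)) * ((2 * a + 1 : ℤ) : ℝ) + (r - 1) *
      ((2 * a + 2 : ℤ) : ℝ) by push_cast; ring, e1, show (2 * (b : ℝ) - 2 + r) =
      (1 - (r - 1)) * ((2 * b - 1 : ℤ) : ℝ) + (r - 1) * ((2 * b : ℤ) : ℝ) by push_cast; ring, e2]
    exact conv_le h3 h4 k2 k3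

/-- Two neighbouring squares, first direction. -/
private theorem nbA {a b : ℤ} (hab : (a + b) % 2 = 1) (hs : sg a b ≠ sg (a + 1) (b + 1)) {x y : ℝ}
    (h1 : (x, y) ∈ Dm a b) (h2 : (x, y) ∈ Dm (a + 1) (b + 1)) : dist (EE x) (EE y) ≤ 1 := by
  change |x - 2 * a| + |y - 2 * b| ≤ 2 at h1
  change |x - 2 * ((a + 1 : ℤ) : ℝ)| + |y - 2 * ((b + 1 : ℤ) : ℝ)| ≤ 2 at h2
  push_cast at h2
  have k1 := le_abs_self (x - 2 * a)
  have k2 := le_abs_self (y - 2 * b)
  have k3 := neg_abs_le (x - 2 * (a + 1))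
  have k4 := neg_abs_le (y - 2 * (b + 1))
  have k5 := neg_abs_le (x - 2 * a)
  have k6 := neg_abs_le (y - 2 * b)
  have k7 := le_abs_self (x - 2 * (a + 1))
  have k8 := le_abs_self (y - 2 * (b + 1))
  have h3 : (x - 2 * a) + (y - 2 * b) = 2 := by linarith
  have e := edgeA hab hs (r := x - 2 * a) (by linarith) (by linarith)
  rw [show 2 * (a : ℝ) + (x - 2 * a) = x by ring, show 2 * (b : ℝ) + 2 - (x - 2 * a) = y by
    linarith] at e
  exact e

/-- Two neighbouring squares, second direction. -/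
private theorem nbB {a b : ℤ} (hab : (a + b) % 2 = 1) (hs : sg a b ≠ sg (a + 1) (b - 1)) {x y : ℝ}
    (h1 : (x, y) ∈ Dm a b) (h2 : (x, y) ∈ Dm (a + 1) (b - 1)) : dist (EE x) (EE y) ≤ 1 := by
  change |x - 2 * a| + |y - 2 * b| ≤ 2 at h1
  change |x - 2 * ((a + 1 : ℤ) : ℝ)| + |y - 2 * ((b - 1 : ℤ) : ℝ)| ≤ 2 at h2
  push_cast at h2
  have k1 := le_abs_self (x - 2 * a)
  have k2 := le_abs_self (y - 2 * b)
  have k3 := neg_abs_le (x - 2 * (a + 1))
  have k4 := neg_abs_le (y - 2 * (b - 1))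
  have k5 := neg_abs_le (x - 2 * a)
  have k6 := neg_abs_le (y - 2 * b)
  have k7 := le_abs_self (x - 2 * (a + 1))
  have k8 := le_abs_self (y - 2 * (b - 1))
  have h3 : (x - 2 * a) - (y - 2 * b) = 2 := by linarith
  have e := edgeB hab hs (r := x - 2 * a) (by linarith) (by linarith)
  rw [show 2 * (a : ℝ) + (x - 2 * a) = x by ring, show 2 * (b : ℝ) - 2 + (x - 2 * a) = y by
    linarith] at e
  exact e

/-- A pair in two squares with different signs has distance at most one. -/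
theorem two_signs {a b a' b' : ℤ} (hab : (a + b) % 2 = 1) (hab' : (a' + b') % 2 = 1)
    (hs : sg a b ≠ sg a' b') {x y : ℝ} (h1 : (x, y) ∈ Dm a b) (h2 : (x, y) ∈ Dm a' b') :
    dist (EE x) (EE y) ≤ 1 := by
  have h1' : |x - 2 * a| + |y - 2 * b| ≤ 2 := h1
  have h2' : |x - 2 * a'| + |y - 2 * b'| ≤ 2 := h2
  have hd : |a' - a| + |b' - b| ≤ 2 := by
    have e1 : |2 * (a' : ℝ) - 2 * a| ≤ |x - 2 * a| + |x - 2 * a'| := by
      have := abs_sub_le (2 * (a' : ℝ)) x (2 * a)
      rw [abs_sub_comm (2 * (a' : ℝ)) x] at this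
      linarith
    have e2 : |2 * (b' : ℝ) - 2 * b| ≤ |y - 2 * b| + |y - 2 * b'| := by
      have := abs_sub_le (2 * (b' : ℝ)) y (2 * b)
      rw [abs_sub_comm (2 * (b' : ℝ)) y] at this
      linarith
    rw [← mul_sub, abs_mul, abs_two] at e1 e2
    have e3 : |(a' : ℝ) - a| + |(b' : ℝ) - b| ≤ 2 := by linarith
    exact_mod_cast e3
  have hu : a' = a + (a' - a) := by ring
  have hv : b' = b + (b' - b) := by ring
  generalize a' - a = u at hu hd
  generalize b' - b = v at hv hd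
  subst hu hv
  have hpar : (u + v) % 2 = 0 := by omega
  have hne : u ≠ 0 ∨ v ≠ 0 := by
    by_contra h
    push Not at h
    rw [h.1, h.2, add_zero, add_zero] at hs
    exact hs rfl
  have hsum : u + v ≤ 2 ∧ u - v ≤ 2 ∧ -u + v ≤ 2 ∧ -u - v ≤ 2 := by
    have e1 := le_abs_self u
    have e2 := le_abs_self v
    have e3 := neg_abs_le u
    have e4 := neg_abs_le v
    omega
  have hcase : (u = 1 ∧ v = 1) ∨ (u = 1 ∧ v = -1) ∨ (u = -1 ∧ v = 1) ∨ (u = -1 ∧ v = -1) ∨
      (u = 2 ∧ v = 0) ∨ (u = -2 ∧ v = 0) ∨ (u = 0 ∧ v = 2) ∨ (u = 0 ∧ v = -2) := by omega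
  -- vertices of the squares
  have horiz : ∀ a b : ℤ, (a + b) % 2 = 1 → sg a b ≠ sg (a + 2) b → (x, y) ∈ Dm a b →
      (x, y) ∈ Dm (a + 2) b → dist (EE x) (EE y) ≤ 1 := by
    intro a b hab hs h1 h2
    have h1' : |x - 2 * a| + |y - 2 * b| ≤ 2 := h1
    have h2' : |x - 2 * ((a + 2 : ℤ) : ℝ)| + |y - 2 * b| ≤ 2 := h2
    push_cast at h2'
    have k1 := le_abs_self (x - 2 * a)
    have k2 := abs_nonneg (y - 2 * b)
    have k3 := neg_abs_le (x - 2 * (a + 2))
    have hx : x = 2 * a + 2 := by linarith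
    have hy : |y - 2 * b| = 0 := by linarith
    have hy' : y = 2 * b := by
      rw [abs_eq_zero] at hy
      linarith
    have h3 : (x, y) ∈ Dm (a + 1) (b + 1) := by
      change |x - 2 * ((a + 1 : ℤ) : ℝ)| + |y - 2 * ((b + 1 : ℤ) : ℝ)| ≤ 2
      push_cast
      rw [hx, hy', show (2 * (a : ℝ) + 2 - 2 * (a + 1)) = 0 by ring,
        show (2 * (b : ℝ) - 2 * (b + 1)) = -2 by ring]
      norm_num
    by_cases hh : sg a b = sg (a + 1) (b + 1)
    · rw [hh] at hs
      refine nbB (a := a + 1) (b := b + 1) (by omega) ?_ h3 ?_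
      · rw [show a + 1 + 1 = a + 2 by ring, show b + 1 - 1 = b by ring]
        exact hs
      · rw [show a + 1 + 1 = a + 2 by ring, show b + 1 - 1 = b by ring]
        exact h2
    · exact nbA hab hh h1 h3
  have vert : ∀ a b : ℤ, (a + b) % 2 = 1 → sg a b ≠ sg a (b + 2) → (x, y) ∈ Dm a b →
      (x, y) ∈ Dm a (b + 2) → dist (EE x) (EE y) ≤ 1 := by
    intro a b hab hs h1 h2
    have h1' : |x - 2 * a| + |y - 2 * b| ≤ 2 := h1
    have h2' : |x - 2 * a| + |y - 2 * ((b + 2 : ℤ) : ℝ)| ≤ 2 := h2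
    push_cast at h2'
    have k1 := le_abs_self (y - 2 * b)
    have k2 := abs_nonneg (x - 2 * a)
    have k3 := neg_abs_le (y - 2 * (b + 2))
    have hy : y = 2 * b + 2 := by linarith
    have hx : |x - 2 * a| = 0 := by linarith
    have hx' : x = 2 * a := by
      rw [abs_eq_zero] at hx
      linarith
    have h3 : (x, y) ∈ Dm (a + 1) (b + 1) := by
      change |x - 2 * ((a + 1 : ℤ) : ℝ)| + |y - 2 * ((b + 1 : ℤ) : ℝ)| ≤ 2
      push_cast
      rw [hx', hy, show (2 * (b : ℝ) + 2 - 2 * (b + 1)) = 0 by ring,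
        show (2 * (a : ℝ) - 2 * (a + 1)) = -2 by ring]
      norm_num
    by_cases hh : sg a b = sg (a + 1) (b + 1)
    · rw [hh] at hs
      refine nbB (a := a) (b := b + 2) (by omega) ?_ h2 ?_
      · rw [show b + 2 - 1 = b + 1 by ring]
        exact hs.symm
      · rw [show b + 2 - 1 = b + 1 by ring]
        exact h3
    · exact nbA hab hh h1 h3
  rcases hcase with ⟨rfl, rfl⟩ | ⟨rfl, rfl⟩ | ⟨rfl, rfl⟩ | ⟨rfl, rfl⟩ | ⟨rfl, rfl⟩ | ⟨rfl, rfl⟩ |
    ⟨rfl, rfl⟩ | ⟨rfl, rfl⟩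
  · exact nbA hab hs h1 h2
  · exact nbB hab hs h1 h2
  · refine nbB (a := a + -1) (b := b + 1) hab' ?_ h2 ?_
    · rw [neg_add_cancel_right, add_sub_cancel_right]
      exact hs.symm
    · rw [neg_add_cancel_right, add_sub_cancel_right]
      exact h1
  · refine nbA (a := a + -1) (b := b + -1) hab' ?_ h2 ?_
    · rw [neg_add_cancel_right, neg_add_cancel_right]
      exact hs.symm
    · rw [neg_add_cancel_right, neg_add_cancel_right]
      exact h1
  · rw [add_zero] at hs h2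
    exact horiz a b hab hs h1 h2
  · rw [add_zero] at hs h2
    refine horiz (a + -2) b (by omega) ?_ h2 ?_
    · rw [neg_add_cancel_right]
      exact hs.symm
    · rw [neg_add_cancel_right]
      exact h1
  · rw [add_zero] at hs h2
    exact vert a b hab hs h1 h2
  · rw [add_zero] at hs h2
    refine vert a (b + -2) (by omega) ?_ h2 ?_
    · rw [neg_add_cancel_right]
      exact hs.symm
    · rw [neg_add_cancel_right]
      exact h1

theorem US_inter {P : Poly × Poly} (h1 : P ∈ US true) (h2 : P ∈ US false) :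
    dist P.1 P.2 ≤ 1 := by
  obtain ⟨a, b, hab, hs, x, y, hxy, rfl⟩ := h1
  obtain ⟨a', b', hab', hs', x', y', hxy', hP⟩ := h2
  rw [Prod.mk.injEq] at hP
  obtain ⟨k, hk⟩ := ee_inj hP.1.symm
  obtain ⟨l, hl⟩ := ee_inj hP.2.symm
  have h3 := Dm_shift (k := k) (l := l) hxy'
  rw [← hk, ← hl] at h3
  refine two_signs hab (a' := a' + 24 * k) (b' := b' + 24 * l) (by omega) ?_ hxy h3
  rw [sg_per, hs, hs']
  exact Bool.noConfusion

private theorem chk0' {a : ℤ} (ha : a % 2 = 1) : sg 0 a = true ∧ sg a 0 = false := by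
  have ha0 : 0 ≤ a % 24 := Int.emod_nonneg _ (by norm_num)
  obtain ⟨a', ha'⟩ := Int.eq_ofNat_of_zero_le ha0
  have ea : a = (a' : ℤ) + 24 * (a / 24) := by omega
  have h := chk0 a' (by omega) (by omega)
  have h1 := sg_per 0 a' 0 (a / 24)
  have h2 := sg_per a' 0 (a / 24) 0
  rw [mul_zero, add_zero] at h1 h2
  rw [ea, h1, h2]
  exact h

theorem row_false (P : Poly × Poly) (h : P.2 = ee 0) : P ∈ US false := by
  obtain ⟨x, hx⟩ := ee_surj P.1
  have hx0 := Int.floor_le (x / 4)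
  have hx1 := Int.lt_floor_add_one (x / 4)
  refine ⟨2 * ⌊x / 4⌋ + 1, 0, by omega, (chk0' (by omega)).2, x, 0, ?_, Prod.ext hx.symm h⟩
  change |x - 2 * ((2 * ⌊x / 4⌋ + 1 : ℤ) : ℝ)| + |(0 : ℝ) - 2 * ((0 : ℤ) : ℝ)| ≤ 2
  push_cast
  rw [mul_zero, sub_zero, abs_zero, add_zero, abs_le]
  constructor <;> linarith

theorem col_true (P : Poly × Poly) (h : P.1 = ee 0) : P ∈ US true := by
  obtain ⟨y, hy⟩ := ee_surj P.2
  have hx0 := Int.floor_le (y / 4)
  have hx1 := Int.lt_floor_add_one (y / 4)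
  refine ⟨0, 2 * ⌊y / 4⌋ + 1, by omega, (chk0' (by omega)).1, 0, y, ?_, Prod.ext h hy.symm⟩
  change |(0 : ℝ) - 2 * ((0 : ℤ) : ℝ)| + |y - 2 * ((2 * ⌊y / 4⌋ + 1 : ℤ) : ℝ)| ≤ 2
  push_cast
  rw [mul_zero, sub_zero, abs_zero, zero_add, abs_le]
  constructor <;> linarith

theorem span_le_one : surjSpan Poly ≤ 1 := by
  refine sSup_le ?_
  rintro _ ⟨a, rfl, C, ⟨hC, hfar⟩, h1, h2⟩
  by_contra hlt
  have hlt' : (1 : ℝ) < a := by
    rw [not_le] at hlt
    exact_mod_cast hlt
  have hcov : C ⊆ US true ∪ US false := fun P _ => US_cover P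
  obtain ⟨P, hP, hP1⟩ : ee 0 ∈ Prod.fst '' C := by rw [h1]; trivial
  obtain ⟨Q, hQ, hQ2⟩ : ee 0 ∈ Prod.snd '' C := by rw [h2]; trivial
  obtain ⟨R, hR, hR1, hR2⟩ := isPreconnected_closed_iff.1 hC.isPreconnected _ _ (US_closed true)
    (US_closed false) hcov ⟨P, hP, col_true P hP1⟩ ⟨Q, hQ, row_false Q hQ2⟩
  have h3 := US_inter hR1 hR2
  have h4 := hfar R hR
  linarith

/-- There is a simple closed curve `X` (a compact connected metric space homeomorphic to the
circle, in fact a polygon with `48` vertices in `ℝ^48` with the maximum norm) with surjective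
span at most `1` and surjective semi-span at least `3`; in particular `σ₀*(X) > 2 σ*(X)`. -/
theorem result : ∃ (X : Type) (_ : MetricSpace X), CompactSpace X ∧ ConnectedSpace X ∧
    Nonempty (X ≃ₜ Circle) ∧ surjSpan X ≤ 1 ∧ 3 ≤ surjSemiSpan X ∧
    2 * surjSpan X < surjSemiSpan X := by
  refine ⟨Poly, inferInstance, isCompact_iff_compactSpace.1 poly_compact,
    isConnected_iff_connectedSpace.1 poly_connected, poly_circle, span_le_one, three_le_semi, ?_⟩
  calc 2 * surjSpan Poly ≤ 2 * 1 := by gcongr; exact span_le_one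
    _ < 3 := by norm_num
    _ ≤ surjSemiSpan Poly := three_le_semi

end Pool.Agent.Results.MP_c087c9_gt.ClosedCurve
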